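import Pool.Agent.Q74.BT.Stm6
import Pool.Agent.Q182.BT.Walk

/-!
# Project BT, part 6 (helper74), job Far: far walkers do not meet (by helper166)
-/

set_option autoImplicit false

namespace Pool.Agent.Q166.BT

open Finset
open Pool.Agent.Q158.Pair (T)
open Pool.Agent.Q74.AR (oc bE oc_per)
open Pool.Agent.Q74.KP (EE EE_mono EE_add EE_const oc_add)
open Pool.Agent.Q74.BL (nx EE_split T_add EE_oc)
open Pool.Agent.Q74.BT

/-- the tail after the time `k`, starting from a trajectory chosen by the residue modulo `2^k` -/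
theorem mean_tail (k v : ℕ) (h σ : ℝ) (hσ : 0 ≤ σ) (j : ℤ → ℕ)
    (hj : ∀ x y : ℤ, j (x + 2 ^ k * y) = j x) :
    EE (k + v) (fun x => if h < |(oc v (T^[k] (x + j x)) : ℝ) - (v : ℝ) / 2| then (1 : ℝ) else 0) ≤
      2 * Real.exp (σ ^ 2 * v / 8 - σ * h) := by
  rw [EE_split]
  have h1 : ∀ x : ℤ, EE v (fun x' : ℤ =>
      (fun x : ℤ => if h < |(oc v (T^[k] (x + j x)) : ℝ) - (v : ℝ) / 2| then (1 : ℝ) else 0)
        (2 ^ k * x' + x)) ≤ 2 * Real.exp (σ ^ 2 * v / 8 - σ * h) := by
    intro x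
    have h2 : (fun x' : ℤ =>
      (fun x : ℤ => if h < |(oc v (T^[k] (x + j x)) : ℝ) - (v : ℝ) / 2| then (1 : ℝ) else 0)
        (2 ^ k * x' + x)) = fun x' : ℤ =>
        (fun n : ℕ => if h < |(n : ℝ) - (v : ℝ) / 2| then (1 : ℝ) else 0)
          (oc v (3 ^ oc k (x + j x) * x' + T^[k] (x + j x))) := by
      funext x'
      have e1 : (2 : ℤ) ^ k * x' + x = x + 2 ^ k * x' := by ring
      simp only [e1, hj]
      have e2 : x + 2 ^ k * x' + (j x : ℤ) = (x + j x) + 2 ^ k * x' := by ring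
      have e3 : (3 : ℤ) ^ oc k (x + j x) * x' + T^[k] (x + j x) =
          T^[k] (x + j x) + 3 ^ oc k (x + j x) * x' := by ring
      rw [e2, T_add, e3]
    rw [h2, EE_oc v (fun n : ℕ => if h < |(n : ℝ) - (v : ℝ) / 2| then (1 : ℝ) else 0)]
    exact Pool.Agent.Q182.BT.tail v σ h hσ
  refine (EE_mono k h1).trans ?_
  rw [EE_const]

/-- the level at the time of contraction -/
theorem lev (C : ℝ) (hC : 1 ≤ C) (L k : ℕ) (hL : 1 ≤ L) (j : ℤ → ℕ) (h : LN C L k j) (x : ℤ) :
    |(oc k (x + j x) : ℝ) * Real.log 3 + Real.log L - k * Real.log 2| ≤ Real.log C := by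
  obtain ⟨-, -, h3⟩ := h
  obtain ⟨h4, h5, -⟩ := h3 x
  have hL0 : (0 : ℝ) < L := by exact_mod_cast hL
  have hC0 : 0 < C := by linarith
  have e1 : Real.log ((2 : ℝ) ^ k) = k * Real.log 2 := by rw [Real.log_pow]
  have e2 : Real.log ((3 : ℝ) ^ oc k (x + j x) * L) = (oc k (x + j x) : ℝ) * Real.log 3 + Real.log L := by
    rw [Real.log_mul (by positivity) hL0.ne', Real.log_pow]
  have h6 := Real.log_le_log (by positivity) h4
  have h7 := Real.log_le_log (by positivity) h5
  rw [Real.log_mul hC0.ne' (by positivity), e1, e2] at h6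
  rw [Real.log_mul hC0.ne' (by positivity), e1, e2] at h7
  rw [abs_le]
  constructor <;> linarith

theorem far : S_Far := by
  intro C hC
  have hl3 : 0 < Real.log 3 := Real.log_pos (by norm_num)
  have hlC : 0 ≤ Real.log C := Real.log_nonneg hC
  refine ⟨2 * Real.log C / Real.log 3 + 1, ?_⟩
  intro L t k k' j j' D hL hkk hkt ht hj hj' hD hDC
  obtain ⟨v, rfl⟩ := Nat.exists_eq_add_of_le (hkk.trans hkt)
  obtain ⟨v', hv'⟩ := Nat.exists_eq_add_of_le hkt
  set t : ℕ := k + v with htdef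
  have ht0 : (0 : ℝ) < t := by exact_mod_cast ht
  have h1 : ∀ x : ℤ, Set.indicator {x : ℤ | oc t (x + j x) = oc t (x + j' x)} (1 : ℤ → ℝ) x ≤
      (if D / 2 < |(oc v (T^[k] (x + j x)) : ℝ) - (v : ℝ) / 2| then (1 : ℝ) else 0) +
      (if D / 2 < |(oc v' (T^[k'] (x + j' x)) : ℝ) - (v' : ℝ) / 2| then (1 : ℝ) else 0) := by
    intro x
    by_cases hx : x ∈ {x : ℤ | oc t (x + j x) = oc t (x + j' x)}
    · rw [Set.indicator_of_mem hx]
      have hx' : oc t (x + j x) = oc t (x + j' x) := hx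
      have e1 : oc t (x + j x) = oc k (x + j x) + oc v (T^[k] (x + j x)) := by
        rw [htdef, oc_add]
      have e2 : oc t (x + j' x) = oc k' (x + j' x) + oc v' (T^[k'] (x + j' x)) := by
        rw [hv', oc_add]
      have e3 : (oc k (x + j x) : ℝ) + oc v (T^[k] (x + j x)) =
          oc k' (x + j' x) + oc v' (T^[k'] (x + j' x)) := by
        have := hx'
        rw [e1, e2] at this
        exact_mod_cast this
      have h2 := abs_le.mp (lev C hC L k hL j hj x)
      have h3 := abs_le.mp (lev C hC L k' hL j' hj' x)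
      have e4 : (k : ℝ) + v = k' + v' := by
        have : k + v = k' + v' := hv'
        exact_mod_cast this
      -- the displacements
      have h4 : D + 1 ≤ ((oc k' (x + j' x) : ℝ) - k' / 2) - ((oc k (x + j x) : ℝ) - k / 2) := by
        have h5 : ((oc k' (x + j' x) : ℝ) - (oc k (x + j x) : ℝ)) * Real.log 3 ≥
            ((k' : ℝ) - k) * Real.log 2 - 2 * Real.log C := by linarith
        have h6 : (oc k' (x + j' x) : ℝ) - (oc k (x + j x) : ℝ) ≥
            (((k' : ℝ) - k) * Real.log 2 - 2 * Real.log C) / Real.log 3 := by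
          rw [ge_iff_le, div_le_iff₀ hl3]
          exact h5
        have h7 : (((k' : ℝ) - k) * Real.log 2 - 2 * Real.log C) / Real.log 3 =
            kap * ((k' : ℝ) - k) + ((k' : ℝ) - k) / 2 - 2 * Real.log C / Real.log 3 := by
          unfold kap
          field_simp
          ring
        rw [h7] at h6
        linarith
      have h8 : D + 1 ≤ ((oc v (T^[k] (x + j x)) : ℝ) - (v : ℝ) / 2) -
          ((oc v' (T^[k'] (x + j' x)) : ℝ) - (v' : ℝ) / 2) := by
        linarith
      by_cases h9 : D / 2 < |(oc v (T^[k] (x + j x)) : ℝ) - (v : ℝ) / 2|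
      · rw [if_pos h9]
        show (1 : ℝ) ≤ _
        split_ifs <;> norm_num
      · have h10 : D / 2 < |(oc v' (T^[k'] (x + j' x)) : ℝ) - (v' : ℝ) / 2| := by
          have h11 := abs_le.mp (not_lt.mp h9)
          rw [lt_abs]
          right
          linarith
        rw [if_pos h10]
        show (1 : ℝ) ≤ _
        split_ifs <;> norm_num
    · rw [Set.indicator_of_notMem hx]
      split_ifs <;> norm_num
  refine (EE_mono t h1).trans ?_
  rw [EE_add t (fun x => if D / 2 < |(oc v (T^[k] (x + j x)) : ℝ) - (v : ℝ) / 2| then (1 : ℝ) else 0)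
    (fun x => if D / 2 < |(oc v' (T^[k'] (x + j' x)) : ℝ) - (v' : ℝ) / 2| then (1 : ℝ) else 0)]
  have hσ : 0 ≤ 2 * D / t := by positivity
  have h12 := mean_tail k v (D / 2) (2 * D / t) hσ j hj.2.1
  have h13 := mean_tail k' v' (D / 2) (2 * D / t) hσ j' hj'.2.1
  have hb : ∀ w : ℕ, w ≤ t → 2 * Real.exp ((2 * D / t) ^ 2 * w / 8 - (2 * D / t) * (D / 2)) ≤
      2 * Real.exp (-(D ^ 2 / (2 * t))) := by
    intro w hw
    have hw' : (w : ℝ) ≤ t := by exact_mod_cast hw
    have : (2 * D / t) ^ 2 * w / 8 - (2 * D / t) * (D / 2) ≤ -(D ^ 2 / (2 * t)) := by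
      have e5 : (2 * D / t) ^ 2 * w / 8 ≤ (2 * D / t) ^ 2 * t / 8 := by gcongr
      have e6 : (2 * D / (t : ℝ)) ^ 2 * t / 8 - (2 * D / t) * (D / 2) = -(D ^ 2 / (2 * t)) := by
        field_simp
        ring
      linarith
    have := Real.exp_le_exp.mpr this
    linarith
  have h14 := hb v (by omega)
  have h15 := hb v' (by omega)
  rw [← hv'] at h13
  rw [← htdef] at h12
  linarith

end Pool.Agent.Q166.BT
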