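import Pool.Agent.Q74.BT.Stm7

/-!
# Project BT, part 7 (helper74), job LLN: law of large numbers for the number of values (by helper166)
-/

set_option autoImplicit false

namespace Pool.Agent.Q166.BT

open Finset
open Pool.Agent.Q158.Pair (T)
open Pool.Agent.Q74.AR (oc bE oc_per)
open Pool.Agent.Q74.KP (EE EE_mono EE_add EE_const oc_add)
open Pool.Agent.Q74.BL (nx EE_split T_add EE_oc)
open Pool.Agent.Q74.BT

/-- fewer levels than values -/
theorem card_image_le_of {α β δ : Type*} [DecidableEq β] [DecidableEq δ] (s : Finset α) (f : α → β)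
    (g : α → δ) (h : ∀ a ∈ s, ∀ b ∈ s, g a = g b → f a = f b) : (s.image f).card ≤ (s.image g).card := by
  classical
  rcases s.eq_empty_or_nonempty with rfl | ⟨a0, ha0⟩
  · simp
  let F : δ → β := fun v => if H : ∃ a ∈ s, g a = v then f H.choose else f a0
  have h1 : s.image f ⊆ (s.image g).image F := by
    intro b hb
    obtain ⟨a, ha, rfl⟩ := Finset.mem_image.mp hb
    refine Finset.mem_image.mpr ⟨g a, Finset.mem_image_of_mem _ ha, ?_⟩
    have H : ∃ a' ∈ s, g a' = g a := ⟨a, ha, rfl⟩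
    show (if H : ∃ a' ∈ s, g a' = g a then f H.choose else f a0) = f a
    rw [dif_pos H]
    exact h _ H.choose_spec.1 _ ha H.choose_spec.2
  exact (Finset.card_le_card h1).trans Finset.card_image_le

/-- for `|n| ≥ 2^t` there are at least as many values as levels -/
theorem lsg_le (L t : ℕ) (n : ℤ) (hn : (2 : ℝ) ^ t ≤ |(n : ℝ)|) : (LSg L t n).card ≤ Vn L t n := by
  unfold LSg Vn
  refine le_trans (card_image_le_of _ _ (fun j : ℕ => T^[t] (n + j)) ?_)
    (Finset.card_le_card (Finset.image_subset_image (Finset.filter_subset _ _)))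
  intro a ha b hb hab
  obtain ⟨-, ha2⟩ := Finset.mem_filter.mp ha
  obtain ⟨-, hb2⟩ := Finset.mem_filter.mp hb
  have h2t : (0 : ℝ) < 2 ^ t := by positivity
  set ν : ℝ := (n : ℝ) / 2 ^ t with hν
  have hν1 : 1 ≤ |ν| := by
    rw [hν, abs_div, abs_of_pos h2t, le_div_iff₀ h2t, one_mul]
    exact hn
  have ea : (3 : ℝ) ^ oc t (n + a) * n / 2 ^ t = 3 ^ oc t (n + a) * ν := by rw [hν]; ring
  have eb : (3 : ℝ) ^ oc t (n + b) * n / 2 ^ t = 3 ^ oc t (n + b) * ν := by rw [hν]; ring
  rw [ea] at ha2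
  rw [eb] at hb2
  have key : ∀ (p q : ℕ) (v : ℝ), p < q → |v - 3 ^ p * ν| ≤ 3 ^ p / 8 → |v - 3 ^ q * ν| ≤ 3 ^ q / 8 → False := by
    intro p q v hpq h1 h2
    have h3 : (3 : ℝ) * 3 ^ p ≤ 3 ^ q := by
      calc (3 : ℝ) * 3 ^ p = 3 ^ (p + 1) := by ring
        _ ≤ 3 ^ q := pow_le_pow_right₀ (by norm_num) hpq
    have h4 : (0 : ℝ) < 3 ^ p := by positivity
    have h5 : |(3 ^ q - 3 ^ p) * ν| ≤ 3 ^ p / 8 + 3 ^ q / 8 := by
      have e : ((3 : ℝ) ^ q - 3 ^ p) * ν = (v - 3 ^ p * ν) - (v - 3 ^ q * ν) := by ring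
      rw [e]
      exact (abs_sub _ _).trans (add_le_add h1 h2)
    rw [abs_mul, abs_of_pos (by linarith : (0 : ℝ) < 3 ^ q - 3 ^ p)] at h5
    have h6 : ((3 : ℝ) ^ q - 3 ^ p) * 1 ≤ (3 ^ q - 3 ^ p) * |ν| :=
      mul_le_mul_of_nonneg_left hν1 (by linarith)
    linarith
  have hab' : (T^[t] (n + a) : ℝ) = T^[t] (n + b) := by
    have : T^[t] (n + (a : ℤ)) = T^[t] (n + (b : ℤ)) := hab
    rw [this]
  rcases lt_trichotomy (oc t (n + a)) (oc t (n + b)) with h | h | h
  · exact (key _ _ _ h ha2 (by rw [hab']; exact hb2)).elim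
  · show (oc t (n + a) : ℤ) = oc t (n + b)
    rw [h]
  · exact (key _ _ _ h hb2 (by rw [← hab']; exact ha2)).elim

/-- periodicity -/
theorem lsg_per (L t : ℕ) (x N : ℤ) : LSg L t (x + 2 ^ t * N) = LSg L t x := by
  unfold LSg
  have e1 : ∀ j : ℕ, oc t (x + 2 ^ t * N + j) = oc t (x + j) := by
    intro j
    have : x + 2 ^ t * N + (j : ℤ) = (x + j) + 2 ^ t * N := by ring
    rw [this, oc_per]
  have e2 : ∀ j : ℕ, T^[t] (x + 2 ^ t * N + j) = T^[t] (x + j) + 3 ^ oc t (x + j) * N := by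
    intro j
    have : x + 2 ^ t * N + (j : ℤ) = (x + j) + 2 ^ t * N := by ring
    rw [this, T_add]
  have h2t : (2 : ℝ) ^ t ≠ 0 := by positivity
  simp only [e1, e2]
  congr 1
  apply Finset.filter_congr
  intro j _
  have e3 : ((T^[t] (x + (j : ℤ)) + 3 ^ oc t (x + j) * N : ℤ) : ℝ) -
      3 ^ oc t (x + j) * ((x + 2 ^ t * N : ℤ) : ℝ) / 2 ^ t =
      (T^[t] (x + j) : ℝ) - 3 ^ oc t (x + j) * x / 2 ^ t := by
    push_cast
    field_simp
    ring
  rw [e3]

/-- the number of elements of a periodic set in a window -/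
theorem window (t : ℕ) (F : ℤ → ℝ) (h0 : ∀ x, 0 ≤ F x) (hF : ∀ x N : ℤ, F (x + 2 ^ t * N) = F x) (M : ℤ) (W : ℕ) :
    ∑ n ∈ Ico M (M + W), F n ≤ ((W : ℝ) + 2 ^ t) * EE t F := by
  -- cover by `W / 2^t + 1` periods
  set q : ℕ := W / 2 ^ t + 1 with hq
  have hper : ∀ M : ℤ, ∑ n ∈ Ico M (M + 2 ^ t), F n = 2 ^ t * EE t F := by
    intro M
    have h1 : ∑ n ∈ Ico M (M + 2 ^ t), F n = ∑ i ∈ range (2 ^ t), F (M + i) := by
      refine (Finset.sum_nbij (fun i : ℕ => M + (i : ℤ)) ?_ ?_ ?_ ?_).symm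
      · intro i hi
        have := Finset.mem_range.mp hi
        have h2 : (i : ℤ) < 2 ^ t := by exact_mod_cast this
        have h3 : (0 : ℤ) ≤ i := Int.natCast_nonneg i
        exact Finset.mem_Ico.mpr ⟨by linarith, by linarith⟩
      · intro i _ j _ hij
        have : M + (i : ℤ) = M + j := hij
        have : (i : ℤ) = j := by linarith
        exact_mod_cast this
      · intro n hn
        obtain ⟨h1, h2⟩ := Finset.mem_Ico.mp hn
        refine ⟨(n - M).toNat, ?_, ?_⟩
        · rw [Finset.coe_range, Set.mem_Iio]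
          have h3 : ((n - M).toNat : ℤ) = n - M := Int.toNat_of_nonneg (by linarith)
          have h4 : ((n - M).toNat : ℤ) < ((2 ^ t : ℕ) : ℤ) := by
            rw [h3]
            push_cast
            linarith
          exact_mod_cast h4
        · have h3 : ((n - M).toNat : ℤ) = n - M := Int.toNat_of_nonneg (by linarith)
          show M + ((n - M).toNat : ℤ) = n
          rw [h3]
          ring
      · intro i _
        rfl
    rw [h1]
    have h2 := Pool.Agent.Q74.AR.sum_shift t F hF M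
    have h3 : ∑ i ∈ range (2 ^ t), F (M + i) = ∑ i ∈ range (2 ^ t), F (i + M) :=
      Finset.sum_congr rfl fun i _ => by rw [add_comm]
    rw [h3, h2]
    unfold EE
    field_simp
  have hmul : ∀ q : ℕ, ∑ n ∈ Ico M (M + (q : ℤ) * 2 ^ t), F n = q * (2 ^ t * EE t F) := by
    intro q
    induction q with
    | zero => simp
    | succ q ih =>
      have h2t : (0 : ℤ) < 2 ^ t := by positivity
      have h1 : ∑ n ∈ Ico M (M + ((q + 1 : ℕ) : ℤ) * 2 ^ t), F n =
          ∑ n ∈ Ico M (M + (q : ℤ) * 2 ^ t), F n +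
          ∑ n ∈ Ico (M + (q : ℤ) * 2 ^ t) (M + (q : ℤ) * 2 ^ t + 2 ^ t), F n := by
        rw [← Finset.sum_union]
        · congr 1
          ext n
          simp only [Finset.mem_union, Finset.mem_Ico]
          push_cast
          constructor
          · rintro ⟨h1, h2⟩
            rcases lt_or_ge n (M + (q : ℤ) * 2 ^ t) with h3 | h3
            · exact Or.inl ⟨h1, h3⟩
            · exact Or.inr ⟨h3, by linarith⟩
          · rintro (⟨h1, h2⟩ | ⟨h1, h2⟩)
            · exact ⟨h1, by linarith⟩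
            · have : (0 : ℤ) ≤ (q : ℤ) * 2 ^ t := by positivity
              exact ⟨by linarith, by linarith⟩
        · rw [Finset.disjoint_left]
          intro n h1 h2
          have h3 := (Finset.mem_Ico.mp h1).2
          have h4 := (Finset.mem_Ico.mp h2).1
          linarith
      rw [h1, ih, hper]
      push_cast
      ring
  have hWq : (W : ℤ) ≤ (q : ℤ) * 2 ^ t := by
    have h1 : W < (W / 2 ^ t + 1) * 2 ^ t := by
      have := Nat.lt_div_mul_add (a := W) (b := 2 ^ t) (by positivity)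
      linarith
    have h2 : (W : ℤ) < ((W / 2 ^ t + 1 : ℕ) : ℤ) * ((2 ^ t : ℕ) : ℤ) := by exact_mod_cast h1
    rw [hq]
    push_cast at h2 ⊢
    exact h2.le
  have h1 : ∑ n ∈ Ico M (M + W), F n ≤ ∑ n ∈ Ico M (M + (q : ℤ) * 2 ^ t), F n := by
    apply Finset.sum_le_sum_of_subset_of_nonneg
    · exact Finset.Ico_subset_Ico_right (by linarith)
    · intro i _ _
      exact h0 i
  have hE : 0 ≤ EE t F := Pool.Agent.Q74.KP.EE_nonneg t h0
  have h2t : (0 : ℝ) < 2 ^ t := by positivity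
  have hqW : (q : ℝ) * 2 ^ t ≤ (W : ℝ) + 2 ^ t := by
    have h3 : W / 2 ^ t * 2 ^ t ≤ W := Nat.div_mul_le_self W (2 ^ t)
    have h4 : ((W / 2 ^ t : ℕ) : ℝ) * 2 ^ t ≤ W := by exact_mod_cast h3
    rw [hq]
    push_cast at h4 ⊢
    linarith
  calc ∑ n ∈ Ico M (M + W), F n ≤ q * (2 ^ t * EE t F) := by rw [← hmul q]; exact h1
    _ = (q * 2 ^ t) * EE t F := by ring
    _ ≤ _ := mul_le_mul_of_nonneg_right hqW hE

theorem kap_pos : 0 < kap := by
  unfold kap
  have h3 : 0 < Real.log 3 := Real.log_pos (by norm_num)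
  have h1 : Real.log 3 < 2 * Real.log 2 := by
    have : Real.log 3 < Real.log 4 := Real.log_lt_log (by norm_num) (by norm_num)
    have h4 : Real.log 4 = 2 * Real.log 2 := by
      rw [show (4 : ℝ) = 2 ^ 2 by norm_num, Real.log_pow]
      push_cast
      ring
    linarith
  have : 1 / 2 < Real.log 2 / Real.log 3 := by
    rw [lt_div_iff₀ h3]
    linarith
  linarith

theorem one_le_MV {γ : ℝ} (h : IsG γ) (L t : ℕ) : 1 ≤ MV γ L t := by
  unfold MV
  have h1 : 0 ≤ Real.log L := Real.log_natCast_nonneg L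
  have h2 : Real.log L / Real.log 2 ≤ γ * Real.log L := by
    have h3 : 0.69 < Real.log 2 := by
      have := Real.log_two_gt_d9
      linarith
    have h4 : 1 / Real.log 2 ≤ γ := by
      rw [div_le_iff₀ (by linarith)]
      have := h.1
      nlinarith
    calc Real.log L / Real.log 2 = 1 / Real.log 2 * Real.log L := by ring
      _ ≤ γ * Real.log L := mul_le_mul_of_nonneg_right h4 h1
  have h5 : √(t - γ * Real.log L) ≤ √(t - Real.log L / Real.log 2) := Real.sqrt_le_sqrt (by linarith)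
  have h6 : 0 ≤ 4 * kap / √Real.pi := by
    have := kap_pos
    positivity
  have := mul_nonneg h6 (sub_nonneg.mpr h5)
  linarith

open Classical in
theorem lln (h1 : S_MeanAll) (h2 : S_LowP) : S_LLN := by
  intro γ hγ ε hε
  -- the small parameter
  obtain ⟨e, he0, he1, he2, he3⟩ : ∃ e : ℝ, 0 < e ∧ e ≤ 1 / 2 ∧ e ≤ ε / 8 ∧ e ≤ ε ^ 2 / 16 := by
    refine ⟨min (1 / 2) (min (ε / 8) (ε ^ 2 / 16)), by positivity, min_le_left _ _,
      (min_le_right _ _).trans (min_le_left _ _), (min_le_right _ _).trans (min_le_right _ _)⟩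
  have heε : e ≤ ε := by linarith
  obtain ⟨t₁, K₁, hmean⟩ := h1 γ hγ e he0
  obtain ⟨M₀, hM₀, t₂, hlow⟩ := h2 γ hγ e he0
  obtain ⟨K₂, hK₂⟩ := exists_nat_ge (4 / e)
  refine ⟨M₀, hM₀, max t₁ t₂, max K₁ K₂, ?_⟩
  intro t ht L hL hML hγL M W hW
  have ht0 : (0 : ℝ) ≤ t := Nat.cast_nonneg t
  have hγL' : γ * Real.log L ≤ (1 - e) * t := by
    have : (1 - ε) * t ≤ (1 - e) * t := mul_le_mul_of_nonneg_right (by linarith) ht0
    linarith
  have hW1 : K₁ * 2 ^ t ≤ W := le_trans (Nat.mul_le_mul_right _ (le_max_left _ _)) hW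
  have hW2 : K₂ * 2 ^ t ≤ W := le_trans (Nat.mul_le_mul_right _ (le_max_right _ _)) hW
  have hmean' := hmean t (le_trans (le_max_left _ _) ht) L hL hγL' M W hW1
  have hlow' := hlow t (le_trans (le_max_right _ _) ht) L hL hML hγL'
  set m : ℝ := MV γ L t with hm
  have hm1 : 1 ≤ m := one_le_MV hγ L t
  have hm0 : 0 < m := by linarith
  have hW0 : (0 : ℝ) ≤ W := Nat.cast_nonneg W
  -- the window is long
  have hlong : (2 : ℝ) ^ t * (4 / e) ≤ W := by
    have h3 : ((K₂ * 2 ^ t : ℕ) : ℝ) ≤ W := by exact_mod_cast hW2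
    push_cast at h3
    calc (2 : ℝ) ^ t * (4 / e) ≤ 2 ^ t * K₂ := mul_le_mul_of_nonneg_left hK₂ (by positivity)
      _ = K₂ * 2 ^ t := by ring
      _ ≤ W := h3
  have hlong' : (2 : ℝ) ^ t * 4 ≤ e * W := by
    have := mul_le_mul_of_nonneg_left hlong he0.le
    have e1 : e * ((2 : ℝ) ^ t * (4 / e)) = 2 ^ t * 4 := by field_simp
    linarith
  -- the lower tail
  set S : Finset ℤ := Ico M (M + W) with hS
  have hScard : (S.card : ℝ) = W := by
    rw [hS, Int.card_Ico]
    simp
  let A : Finset ℤ := S.filter (fun n => (Vn L t n : ℝ) < (1 - e) * m)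
  let B : Finset ℤ := S.filter (fun n => (1 + ε) * m < (Vn L t n : ℝ))
  have hA : (A.card : ℝ) ≤ 2 * e * W := by
    let F : ℤ → ℝ := fun x => Set.indicator {x : ℤ | ((LSg L t x).card : ℝ) < (1 - e) * MV γ L t} 1 x
    have hF0 : ∀ x, 0 ≤ F x := fun x => Set.indicator_nonneg (fun _ _ => zero_le_one) x
    have hFp : ∀ x N : ℤ, F (x + 2 ^ t * N) = F x := by
      intro x N
      show Set.indicator {x : ℤ | ((LSg L t x).card : ℝ) < (1 - e) * MV γ L t} 1 (x + 2 ^ t * N) =
        Set.indicator {x : ℤ | ((LSg L t x).card : ℝ) < (1 - e) * MV γ L t} 1 x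
      simp only [Set.indicator, Set.mem_ofPred_eq, lsg_per]
      rfl
    have hw := window t F hF0 hFp M W
    have hEE : EE t F ≤ e := hlow'
    have hsub : A ⊆ (S.filter (fun n => ((LSg L t n).card : ℝ) < (1 - e) * m)) ∪ Ioo (-(2 ^ t : ℤ)) (2 ^ t) := by
      intro n hn
      obtain ⟨hnS, hn2⟩ := Finset.mem_filter.mp hn
      rw [Finset.mem_union]
      by_cases h3 : (2 : ℝ) ^ t ≤ |(n : ℝ)|
      · left
        refine Finset.mem_filter.mpr ⟨hnS, ?_⟩
        have h4 := lsg_le L t n h3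
        have h5 : ((LSg L t n).card : ℝ) ≤ Vn L t n := by exact_mod_cast h4
        linarith
      · right
        have h4 : |(n : ℝ)| < 2 ^ t := not_le.mp h3
        obtain ⟨h5, h6⟩ := abs_lt.mp h4
        rw [Finset.mem_Ioo]
        constructor
        · have : (-(2 ^ t : ℤ) : ℝ) < (n : ℝ) := by push_cast; exact h5
          exact_mod_cast this
        · exact_mod_cast h6
    have hc1 : ((S.filter (fun n => ((LSg L t n).card : ℝ) < (1 - e) * m)).card : ℝ) = ∑ n ∈ S, F n := by
      rw [Finset.card_filter]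
      push_cast
      refine Finset.sum_congr rfl fun n _ => ?_
      show _ = Set.indicator {x : ℤ | ((LSg L t x).card : ℝ) < (1 - e) * MV γ L t} 1 n
      simp only [Set.indicator, Set.mem_ofPred_eq]
      rfl
    have hc2 : ((Ioo (-(2 ^ t : ℤ)) (2 ^ t)).card : ℝ) ≤ 2 * 2 ^ t := by
      rw [Int.card_Ioo]
      have h3 : (((2 : ℤ) ^ t - -2 ^ t - 1).toNat : ℤ) = 2 ^ t - -2 ^ t - 1 := by
        apply Int.toNat_of_nonneg
        have : (1 : ℤ) ≤ 2 ^ t := one_le_pow₀ (by norm_num)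
        linarith
      have h4 : ((((2 : ℤ) ^ t - -2 ^ t - 1).toNat : ℤ) : ℝ) = 2 ^ t - -2 ^ t - 1 := by
        rw [h3]
        push_cast
        ring
      rw [Int.cast_natCast] at h4
      rw [h4]
      linarith
    have hc3 : (A.card : ℝ) ≤ ∑ n ∈ S, F n + 2 * 2 ^ t := by
      have h3 := (Finset.card_le_card hsub).trans (Finset.card_union_le _ _)
      have h4 : (A.card : ℝ) ≤ ((S.filter (fun n => ((LSg L t n).card : ℝ) < (1 - e) * m)).card : ℝ) +
          ((Ioo (-(2 ^ t : ℤ)) (2 ^ t)).card : ℝ) := by exact_mod_cast h3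
      linarith
    have hc4 : ((W : ℝ) + 2 ^ t) * EE t F ≤ ((W : ℝ) + 2 ^ t) * e :=
      mul_le_mul_of_nonneg_left hEE (by positivity)
    have hc5 : (2 : ℝ) ^ t * e ≤ 2 ^ t * 1 := mul_le_mul_of_nonneg_left (by linarith) (by positivity)
    nlinarith
  -- the upper tail
  have hB : (B.card : ℝ) * (ε * m) ≤ 4 * e * W * m := by
    have hsum : ∑ n ∈ S, (Vn L t n : ℝ) ≤ (1 + e) * (m * W) := by
      have := (abs_le.mp hmean').2
      linarith
    have hpt : ∀ n : ℤ, (1 - e) * m - (if n ∈ A then (1 - e) * m else 0) + (if n ∈ B then ε * m else 0) ≤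
        (Vn L t n : ℝ) ∨ n ∉ S := by
      intro n
      by_cases hnS : n ∈ S
      · left
        have hV0 : (0 : ℝ) ≤ Vn L t n := Nat.cast_nonneg _
        by_cases hnA : n ∈ A
        · have hnB : n ∉ B := by
            intro hnB
            have h3 := (Finset.mem_filter.mp hnA).2
            have h4 := (Finset.mem_filter.mp hnB).2
            have : (1 - e) * m ≤ (1 + ε) * m := mul_le_mul_of_nonneg_right (by linarith) hm0.le
            linarith
          rw [if_pos hnA, if_neg hnB]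
          linarith
        · rw [if_neg hnA]
          have h3 : (1 - e) * m ≤ Vn L t n := by
            by_contra h4
            exact hnA (Finset.mem_filter.mpr ⟨hnS, not_le.mp h4⟩)
          by_cases hnB : n ∈ B
          · rw [if_pos hnB]
            have h4 := (Finset.mem_filter.mp hnB).2
            have : 0 ≤ e * m := by positivity
            linarith
          · rw [if_neg hnB]
            linarith
      · right
        exact hnS
    have hsum2 : ∑ n ∈ S, ((1 - e) * m - (if n ∈ A then (1 - e) * m else 0) + (if n ∈ B then ε * m else 0)) ≤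
        ∑ n ∈ S, (Vn L t n : ℝ) := by
      refine Finset.sum_le_sum fun n hn => ?_
      rcases hpt n with h3 | h3
      · exact h3
      · exact absurd hn h3
    have hsA : ∑ n ∈ S, (if n ∈ A then (1 - e) * m else 0) = A.card * ((1 - e) * m) := by
      rw [Finset.sum_ite_mem, Finset.sum_const, nsmul_eq_mul]
      have : S ∩ A = A := Finset.inter_eq_right.mpr (Finset.filter_subset _ _)
      rw [this]
    have hsB : ∑ n ∈ S, (if n ∈ B then ε * m else 0) = B.card * (ε * m) := by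
      rw [Finset.sum_ite_mem, Finset.sum_const, nsmul_eq_mul]
      have : S ∩ B = B := Finset.inter_eq_right.mpr (Finset.filter_subset _ _)
      rw [this]
    rw [Finset.sum_add_distrib, Finset.sum_sub_distrib, hsA, hsB, Finset.sum_const, nsmul_eq_mul, hScard] at hsum2
    have h6 : (A.card : ℝ) * ((1 - e) * m) ≤ (2 * e * W) * ((1 - e) * m) :=
      mul_le_mul_of_nonneg_right hA (mul_nonneg (by linarith) hm0.le)
    have h7 : (B.card : ℝ) * (ε * m) ≤ (1 + e) * (m * W) - W * ((1 - e) * m) + (2 * e * W) * ((1 - e) * m) := by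
      linarith
    have h8 : (1 + e) * (m * W) - W * ((1 - e) * m) + (2 * e * W) * ((1 - e) * m) =
        4 * e * W * m - 2 * e * e * (W * m) := by ring
    have h9 : 0 ≤ 2 * e * e * (W * m) := by positivity
    linarith
  -- conclusion
  have hsubset : {n : ℤ | M ≤ n ∧ n < M + W ∧ ε * m < |(Vn L t n : ℝ) - m|} ⊆ ((A ∪ B : Finset ℤ) : Set ℤ) := by
    intro n hn
    obtain ⟨h3, h4, h5⟩ := hn
    have hnS : n ∈ S := Finset.mem_Ico.mpr ⟨h3, h4⟩
    rw [Finset.mem_coe, Finset.mem_union]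
    rcases lt_abs.mp h5 with h6 | h6
    · right
      exact Finset.mem_filter.mpr ⟨hnS, by linarith⟩
    · left
      refine Finset.mem_filter.mpr ⟨hnS, ?_⟩
      have : e * m ≤ ε * m := mul_le_mul_of_nonneg_right heε hm0.le
      linarith
  have hncard : ({n : ℤ | M ≤ n ∧ n < M + W ∧ ε * m < |(Vn L t n : ℝ) - m|}.ncard : ℝ) ≤ A.card + B.card := by
    have h3 := Set.ncard_le_ncard hsubset (Finset.finite_toSet _)
    rw [Set.ncard_coe_finset] at h3
    have h4 := h3.trans (Finset.card_union_le _ _)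
    exact_mod_cast h4
  have hB' : (B.card : ℝ) ≤ ε / 4 * W := by
    have h3 : (B.card : ℝ) * ε ≤ 4 * e * W := by
      have h4 : (B.card : ℝ) * ε * m ≤ 4 * e * W * m := by linarith
      exact le_of_mul_le_mul_right h4 hm0
    have h5 : 4 * e * W ≤ ε ^ 2 / 4 * W := mul_le_mul_of_nonneg_right (by linarith) hW0
    have h6 : (B.card : ℝ) * ε ≤ (ε / 4 * W) * ε := by
      calc (B.card : ℝ) * ε ≤ ε ^ 2 / 4 * W := h3.trans h5
        _ = (ε / 4 * W) * ε := by ring
    exact le_of_mul_le_mul_right h6 hε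
  have hA' : (A.card : ℝ) ≤ ε / 4 * W := by
    have : 2 * e * W ≤ ε / 4 * W := mul_le_mul_of_nonneg_right (by linarith) hW0
    linarith
  have : ε / 2 * W ≤ ε * W := mul_le_mul_of_nonneg_right (by linarith) hW0
  linarith

end Pool.Agent.Q166.BT
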